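import Pool.Agent.N230.QT.Inv

/-!
# Thin sets and fractional linear transformations (helper230)
-/

set_option autoImplicit false

namespace Pool.Agent.N230.QT

open Polynomial
open Pool.Agent.TH783.CE (Thin)

variable {K : Type} [Field K]

/-- The preimage of a thin set under an affine map is thin. -/
theorem thin_aff {D : Set K} (h : Thin D) {α β : K} (hα : α ≠ 0) : Thin {s | β + α * s ∈ D} := by
  obtain ⟨E, hE, G, hG, hroot, hD⟩ := h
  let φ : K[X] →+* K[X] := compRingHom (C β + C α * X)
  let ψ : K[X] →+* K[X] := compRingHom (C α⁻¹ * (X - C β))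
  have hψφ : ψ.comp φ = RingHom.id K[X] := by
    apply Polynomial.ringHom_ext
    · intro r
      simp [φ, ψ]
    · simp only [RingHom.comp_apply, φ, ψ, coe_compRingHom_apply, X_comp, add_comp, C_comp,
        mul_comp, RingHom.id_apply]
      rw [← mul_assoc, ← C_mul, mul_inv_cancel₀ hα, C_1, one_mul]
      ring
  have hev : ∀ s y : K, (G.map φ).evalEval s y = G.evalEval (β + α * s) y := by
    intro s y
    have h1 : (evalRingHom s).comp φ = evalRingHom (β + α * s) := by
      apply Polynomial.ringHom_ext
      · intro r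
        simp [φ]
      · simp [φ]
    rw [← eval₂_evalRingHom, ← eval₂_evalRingHom, eval₂_map, h1]
  refine ⟨{s | β + α * s ∈ E}, ?_, G.map φ, hG.map φ, ?_, ?_⟩
  · refine (hE.preimage (f := fun s : K => β + α * s) ?_).subset fun s hs => hs
    intro s _ s' _ hss
    exact mul_left_cancel₀ hα (add_left_cancel hss)
  · intro g hg
    refine hroot (ψ g) ?_
    have h1 := congrArg ψ hg
    rw [map_zero, eval_map, hom_eval₂, hψφ, eval₂_id] at h1
    exact h1
  · intro s hs
    rcases hD _ hs with h1 | ⟨y, hy⟩
    · exact Or.inl h1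
    · exact Or.inr ⟨y, by rw [hev, hy]⟩

end Pool.Agent.N230.QT
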