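import Pool.Agent.R565.QF.Conv
import Pool.Agent.N455.PR.Alg

/-!
# Sets contained in a flat set: families of quadratic equations, one quantifier, algebraic witnesses
(helper230)

The lemmas are forms of `Pool.Agent.R565.QF.thin_param` and of the lemmas `thin_oneQ` and `thin_alg` of
helper455.
-/

set_option autoImplicit false

namespace Pool.Agent.N230.QT

open Pool.Agent.TH783.CE (Thin Flat Thin.mono)
open Pool.Agent.N455.PR (thin_alg thin_oneQ)

variable {K : Type} [Field K] [CharZero K] {O : Set K}

/-- `g(x, w, z)` of degree at most two in `(x, z)` and of any degree in `w` -/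
theorem thin_quad (hO : Flat O) {m : ℕ} (g : MvPolynomial (Fin 2 ⊕ Fin m) K)
    (hg : ∀ e ∈ g.support, e (Sum.inl 0) + ∑ j, e (Sum.inr j) ≤ 2)
    (h : ∀ (x w : K) (z : Fin m → K), MvPolynomial.eval (Sum.elim ![x, w] z) g = 0 → x ∈ O) :
    Thin {x : K | ∃ (w : K) (z : Fin m → K), MvPolynomial.eval (Sum.elim ![x, w] z) g = 0} := by
  let ι : Fin 2 ⊕ Fin m → Fin 3 ⊕ Fin m := Sum.map ![0, 2] id
  have hι : Function.Injective ι := by
    refine Sum.map_injective.2 ⟨?_, Function.injective_id⟩
    intro i j hij
    fin_cases i <;> fin_cases j <;> simp_all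
  have hev : ∀ (x w : K) (z : Fin m → K), MvPolynomial.eval (Sum.elim ![x, 0, w] z)
      (MvPolynomial.rename ι g) = MvPolynomial.eval (Sum.elim ![x, w] z) g := by
    intro x w z
    rw [MvPolynomial.eval_rename]
    congr 2
    funext i
    rcases i with i | i
    · fin_cases i <;> rfl
    · rfl
  have hsup : ∀ e ∈ (MvPolynomial.rename ι g).support,
      e (Sum.inl 0) + ∑ j, e (Sum.inr j) ≤ 2 := by
    intro e he
    rw [MvPolynomial.support_rename_of_injective hι, Finset.mem_image] at he
    obtain ⟨e', he', rfl⟩ := he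
    have h1 : (Finsupp.mapDomain ι e') (Sum.inl 0) = e' (Sum.inl 0) := by
      have := Finsupp.mapDomain_apply hι e' (Sum.inl 0)
      exact this
    have h2 : ∀ j : Fin m, (Finsupp.mapDomain ι e') (Sum.inr j) = e' (Sum.inr j) := by
      intro j
      have := Finsupp.mapDomain_apply hι e' (Sum.inr j)
      exact this
    rw [h1, Finset.sum_congr rfl fun j _ => h2 j]
    exact hg e' he'
  have h3 := Pool.Agent.R565.QF.thin_param hO 0 (MvPolynomial.rename ι g) hsup
    (fun x w z hz => h x w z (by rwa [hev] at hz))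
  refine h3.mono ?_
  rintro x ⟨w, z, hz⟩
  exact ⟨w, z, by rwa [hev]⟩

/-- At most one quantifier, or witnesses which are algebraic over the field `K(x)`. -/
def AlgWit {c s : ℕ} (F : Fin s → MvPolynomial (Fin (c + 1)) K) (B : (Fin s → Prop) → Prop) : Prop :=
  c ≤ 1 ∨ ∀ l : Fin c, ∃ G : Polynomial (Polynomial K), G ≠ 0 ∧ ∀ (x : K) (w : Fin c → K),
    B (fun j => MvPolynomial.eval (Fin.cons x w : Fin (c + 1) → K) (F j) = 0) →
      G.evalEval x (w l) = 0

/-- one quantifier: polynomials in `x` and `w` -/
noncomputable def conv : MvPolynomial (Fin 2) K →+* Polynomial (Polynomial K) :=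
  MvPolynomial.eval₂Hom (Polynomial.C.comp Polynomial.C)
    ![Polynomial.C Polynomial.X, Polynomial.X]

theorem eval_conv (x w : K) (f : MvPolynomial (Fin 2) K) :
    (conv f).evalEval x w = MvPolynomial.eval ![x, w] f := by
  have h : (Polynomial.evalEvalRingHom x w).comp conv = MvPolynomial.eval ![x, w] := by
    refine MvPolynomial.ringHom_ext (fun r => ?_) (fun i => ?_)
    · simp [conv]
    · fin_cases i
      · simp [conv]
      · simp [conv]
  exact RingHom.congr_fun h f

theorem thin_wit (hO : Flat O) {c s : ℕ} (F : Fin s → MvPolynomial (Fin (c + 1)) K)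
    (B : (Fin s → Prop) → Prop) (hA : AlgWit F B)
    (h : ∀ (x : K) (w : Fin c → K),
      B (fun j => MvPolynomial.eval (Fin.cons x w : Fin (c + 1) → K) (F j) = 0) → x ∈ O) :
    Thin {x | ∃ w : Fin c → K,
      B (fun j => MvPolynomial.eval (Fin.cons x w : Fin (c + 1) → K) (F j) = 0)} := by
  let ι : Fin (c + 1) → Fin 2 ⊕ Fin c := Fin.cons (Sum.inl 0) Sum.inr
  have hev : ∀ (x : K) (w : Fin c → K) (f : MvPolynomial (Fin (c + 1)) K),
      MvPolynomial.eval (Sum.elim ![x, 0] w) (MvPolynomial.rename ι f) =
        MvPolynomial.eval (Fin.cons x w : Fin (c + 1) → K) f := by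
    intro x w f
    rw [MvPolynomial.eval_rename]
    congr 2
    funext i
    refine Fin.cases ?_ (fun i => ?_) i
    · simp [ι]
    · simp [ι]
  have key : ∀ G : Fin c → Polynomial (Polynomial K), (∀ i, G i ≠ 0) →
      (∀ (x : K) (w : Fin c → K),
        B (fun j => MvPolynomial.eval (Fin.cons x w : Fin (c + 1) → K) (F j) = 0) →
          ∀ i, (G i).evalEval x (w i) = 0) →
      Thin {x | ∃ w : Fin c → K,
        B (fun j => MvPolynomial.eval (Fin.cons x w : Fin (c + 1) → K) (F j) = 0)} := by
    intro G hG0 hG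
    have h1 := thin_alg hO (fun j => MvPolynomial.rename ι (F j)) B 0 G hG0
      (fun x w hw => hG x w (by simpa only [hev] using hw))
      (fun x w hw => h x w (by simpa only [hev] using hw))
    simpa only [hev] using h1
  rcases hA with hc | hA
  · obtain rfl | rfl : c = 0 ∨ c = 1 := by omega
    · exact key (fun l => l.elim0) (fun l => l.elim0) (fun _ _ _ l => l.elim0)
    · have hcons : ∀ (x w : K), (![x, w] : Fin 2 → K) = Fin.cons x (fun _ : Fin 1 => w) := by
        intro x w
        funext i
        fin_cases i <;> rfl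
      have h1 := thin_oneQ hO (fun j => conv (F j)) B (fun x w hw => by
        simp only [eval_conv, hcons] at hw
        exact h x (fun _ => w) hw)
      refine h1.mono ?_
      rintro x ⟨w, hw⟩
      refine ⟨w 0, ?_⟩
      simp only [eval_conv, hcons]
      have : (fun _ : Fin 1 => w 0) = w := by
        funext i
        rw [Subsingleton.elim i 0]
      rw [this]
      exact hw
  · choose G hG0 hG using hA
    exact key G hG0 fun x w hw l => hG l x w hw

end Pool.Agent.N230.QT
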