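import Pool.Agent.N230.QT.Gen

/-!
# Inverses of the elements of a thin set (helper230)
-/

set_option autoImplicit false

namespace Pool.Agent.N230.QT

open Polynomial
open Pool.Agent.TH783.CE (Thin)

variable {K : Type} [Field K]

theorem eval_reflect {f : K[X]} {N : ℕ} (hf : f.natDegree ≤ N) {s : K} (hs : s ≠ 0) :
    (reflect N f).eval s = s ^ N * f.eval s⁻¹ := by
  let i1 : Invertible s⁻¹ := invertibleOfNonzero (inv_ne_zero hs)
  have h2 := eval₂_reflect_mul_pow (RingHom.id K) s⁻¹ N f hf
  have h3 : (⅟(s⁻¹)) = s := by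
    rw [invOf_eq_inv, inv_inv]
  rw [h3, eval₂_id, eval₂_id] at h2
  have h4 : s ^ N ≠ 0 := pow_ne_zero _ hs
  rw [← h2, inv_pow]
  field_simp

theorem eval_eval_poly (G : K[X][X]) (h : K[X]) (a : K) :
    (G.eval h).eval a = G.evalEval a (h.eval a) := by
  have h1 := hom_eval₂ G (RingHom.id K[X]) (evalRingHom a) h
  rw [eval₂_id, RingHom.comp_id, eval₂_evalRingHom] at h1
  simpa using h1

theorem evalEval_form (d : ℕ) (c : Fin d → K[X]) (a y : K) :
    (X ^ d + ∑ i : Fin d, C (c i) * X ^ (i : ℕ) : K[X][X]).evalEval a y =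
      y ^ d + ∑ i : Fin d, (c i).eval a * y ^ (i : ℕ) := by
  simp [evalEval, eval_finsetSum]

/-- The inverses of the elements of a thin set are a thin set. -/
theorem thin_inv [CharZero K] {D : Set K} (h : Thin D) : Thin {s | s ≠ 0 ∧ s⁻¹ ∈ D} := by
  classical
  obtain ⟨E, hE, G, hG, hroot, hD⟩ := h
  obtain ⟨d, hd⟩ : ∃ d, d = G.natDegree := ⟨_, rfl⟩
  obtain ⟨N, hN⟩ : ∃ N : ℕ, ∀ i : Fin d, (G.coeff i).natDegree ≤ N :=
    ⟨∑ i : Fin d, (G.coeff i).natDegree, fun i =>
      Finset.single_le_sum (f := fun i : Fin d => (G.coeff i).natDegree) (fun _ _ => Nat.zero_le _)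
        (Finset.mem_univ i)⟩
  have hGe : G = X ^ d + ∑ i : Fin d, C (G.coeff i) * X ^ (i : ℕ) := by
    conv_lhs => rw [hG.as_sum]
    rw [← hd, Finset.sum_range]
  let c : Fin d → K[X] := fun i => reflect (N * (d - i)) (G.coeff i)
  have hNi : ∀ i : Fin d, (G.coeff i).natDegree ≤ N * (d - i) := by
    intro i
    refine (hN i).trans ?_
    have : 1 ≤ d - (i : ℕ) := by have := i.2; omega
    exact Nat.le_mul_of_pos_right _ this
  set G' : K[X][X] := X ^ d + ∑ i : Fin d, C (c i) * X ^ (i : ℕ) with hG'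
  have hmon : G'.Monic := monic_X_pow_add (degree_sum_fin_lt c)
  have hrel : ∀ (s y : K), s ≠ 0 → G'.evalEval s (s ^ N * y) =
      s ^ (N * d) * G.evalEval s⁻¹ y := by
    intro s y hs
    rw [hG', evalEval_form]
    conv_rhs => rw [hGe, evalEval_form]
    rw [mul_add, Finset.mul_sum, mul_pow, ← pow_mul]
    congr 1
    refine Finset.sum_congr rfl fun i _ => ?_
    show (reflect (N * (d - i)) (G.coeff i)).eval s * _ = _
    rw [eval_reflect (hNi i) hs, mul_pow, ← pow_mul]
    have h1 : N * d = N * (d - i) + N * i := by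
      rw [← Nat.mul_add, Nat.sub_add_cancel i.2.le]
    rw [h1, pow_add]
    ring
  have hroot' : ∀ h : K[X], G'.eval h ≠ 0 := by
    intro h hh
    -- the degree
    have hdeg : h.natDegree ≤ N := by
      by_contra hlt
      push Not at hlt
      have h1 : h ^ d = -∑ i : Fin d, c i * h ^ (i : ℕ) := by
        have h2 : h ^ d + ∑ i : Fin d, c i * h ^ (i : ℕ) = 0 := by
          have := hh
          rw [hG'] at this
          simpa [eval_finsetSum] using this
        exact eq_neg_of_add_eq_zero_left h2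
      rcases Nat.eq_zero_or_pos d with h0 | hpos
      · subst h0
        simp at h1
      have h3 : (∑ i : Fin d, c i * h ^ (i : ℕ)).natDegree ≤ d * h.natDegree - 1 := by
        refine natDegree_sum_le_of_forall_le _ _ fun i _ => ?_
        refine natDegree_mul_le.trans ?_
        have h4 : (c i).natDegree ≤ N * (d - i) :=
          (natDegree_reflect_le).trans (max_le le_rfl (hNi i))
        have h5 : (h ^ (i : ℕ)).natDegree ≤ i * h.natDegree := natDegree_pow_le
        have h6 : 1 ≤ d - (i : ℕ) := by have := i.2; omega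
        have h7 : N * (d - i) + (d - i) ≤ h.natDegree * (d - i) := by
          have : (N + 1) * (d - i) ≤ h.natDegree * (d - i) := Nat.mul_le_mul_right _ hlt
          linarith
        have h8 : h.natDegree * (d - i) + i * h.natDegree = d * h.natDegree := by
          have : d = (d - i) + i := (Nat.sub_add_cancel i.2.le).symm
          conv_rhs => rw [this]
          ring
        omega
      have h9 : (h ^ d).natDegree = d * h.natDegree := natDegree_pow h d
      rw [h1, natDegree_neg] at h9
      have h10 : 0 < d * h.natDegree := Nat.mul_pos hpos (by omega)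
      omega
    refine hroot (reflect N h) ?_
    have hx : ∀ x : K, x ≠ 0 → (G.eval (reflect N h)).eval x = 0 := by
      intro x hx0
      rw [eval_eval_poly, eval_reflect hdeg hx0]
      have h1 := hrel x⁻¹ (x ^ N * h.eval x⁻¹) (inv_ne_zero hx0)
      have h2 : x⁻¹ ^ N * (x ^ N * h.eval x⁻¹) = h.eval x⁻¹ := by
        rw [← mul_assoc, ← mul_pow, inv_mul_cancel₀ hx0, one_pow, one_mul]
      rw [h2, ← eval_eval_poly, hh, eval_zero, inv_inv] at h1
      exact (mul_eq_zero.1 h1.symm).resolve_left (pow_ne_zero _ (inv_ne_zero hx0))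
    have hX : (X : K[X]) * G.eval (reflect N h) = 0 := by
      refine Polynomial.funext fun x => ?_
      rw [eval_mul, eval_X, eval_zero]
      by_cases hx0 : x = 0
      · rw [hx0, zero_mul]
      · rw [hx x hx0, mul_zero]
    exact (mul_eq_zero.1 hX).resolve_left X_ne_zero
  refine ⟨{s | s ≠ 0 ∧ s⁻¹ ∈ E}, ?_, G', hmon, hroot', ?_⟩
  · refine (hE.preimage (f := fun s : K => s⁻¹) (inv_injective.injOn)).subset ?_
    rintro s ⟨-, hs⟩
    exact hs
  · rintro s ⟨hs0, hs⟩
    rcases hD _ hs with h1 | ⟨y, hy⟩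
    · exact Or.inl ⟨hs0, h1⟩
    · exact Or.inr ⟨s ^ N * y, by rw [hrel s y hs0, hy, mul_zero]⟩

end Pool.Agent.N230.QT
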